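import Pool.Agent.V5helper51.MT.Stm
import Pool.Agent.H373R2.NB.Weyl

/-!
# Project MT, job SUP: exponential sums with polynomial phases for almost all coefficients
-/

set_option autoImplicit false

open Finset MeasureTheory Filter

namespace Pool.Agent.V5helper86.MT

open Pool.Agent.V5helper51.MT
open Pool.Agent.H373R2.NB (Ph IW IW_all)

/-! ### the phase -/

section phase

open Polynomial

lemma Ph_real (d : ℕ) : ∀ f : ℝ[X], f.natDegree ≤ d →
    Ph d ((d.factorial : ℝ) * f.coeff d) (fun n => f.eval (n : ℝ)) := by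
  induction d with
  | zero =>
    intro f hf n
    have h1 : f = C (f.coeff 0) := eq_C_of_natDegree_le_zero hf
    have h2 : f.eval (n : ℝ) = f.coeff 0 := by
      conv_lhs => rw [h1]
      rw [eval_C]
    show f.eval (n : ℝ) = _
    rw [h2]; simp
  | succ d ih =>
    intro f hf h
    set g : ℝ[X] := taylor (h : ℝ) f - f with hg
    have hcoef : ∀ j, d ≤ j → (taylor (h : ℝ) f).coeff j =
        f.coeff j + (if j = d then ((d : ℝ) + 1) * f.coeff (d + 1) * h else 0) := by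
      intro j hj
      rw [taylor_coeff]
      have h1 : (hasseDeriv j f).natDegree < 2 := by
        have := natDegree_hasseDeriv_le f j
        omega
      rw [eval_eq_sum_range' h1, sum_range_succ, sum_range_succ, sum_range_zero, hasseDeriv_coeff,
        hasseDeriv_coeff]
      rcases eq_or_ne j d with h2 | h2
      · subst h2
        rw [if_pos rfl, zero_add, zero_add, Nat.choose_self, add_comm 1 j,
          Nat.choose_succ_self_right]
        push_cast
        ring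
      · rw [if_neg h2]
        have h3 : f.coeff (1 + j) = 0 := coeff_eq_zero_of_natDegree_lt (by omega)
        rw [h3, zero_add, zero_add, Nat.choose_self]
        push_cast
        ring
    have hgd : g.natDegree ≤ d := by
      rw [natDegree_le_iff_coeff_eq_zero]
      intro j hj
      rw [hg, coeff_sub, hcoef j (by omega), if_neg (by omega)]
      ring
    have hgc : g.coeff d = ((d : ℝ) + 1) * f.coeff (d + 1) * h := by
      rw [hg, coeff_sub, hcoef d le_rfl, if_pos rfl]; ring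
    have h1 := ih g hgd
    have h2 : (fun n : ℕ => g.eval (n : ℝ)) = fun n : ℕ =>
        f.eval ((n + h : ℕ) : ℝ) - f.eval (n : ℝ) := by
      funext n
      rw [hg, eval_sub, taylor_eval]
      push_cast
      ring_nf
    have h3 : (d.factorial : ℝ) * g.coeff d =
        (h : ℝ) * (((d + 1).factorial : ℝ) * f.coeff (d + 1)) := by
      rw [hgc, Nat.factorial_succ]; push_cast; ring
    rw [h2, h3] at h1
    exact h1

/-- the linear polynomial -/
noncomputable def Lp (q ρ : ℕ) : ℝ[X] := C (q : ℝ) * X + C (ρ : ℝ)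

/-- the phase as a polynomial -/
noncomputable def Fp (k q ρ : ℕ) (α : Fin (k - 1) → ℝ) (γ : ℝ) : ℝ[X] :=
  C γ * (C ((q : ℝ)⁻¹) * (Lp q ρ ^ k - C ((ρ : ℝ) ^ k)) + ∑ j, C (α j) * Lp q ρ ^ ((j : ℕ) + 1))

lemma Lp_deg (q ρ : ℕ) : (Lp q ρ).natDegree ≤ 1 := natDegree_linear_le

lemma Lp_pow_deg (q ρ n : ℕ) : (Lp q ρ ^ n).natDegree ≤ n := by
  refine (natDegree_pow_le_of_le n (Lp_deg q ρ)).trans ?_
  rw [mul_one]

lemma Fp_eval (k q ρ : ℕ) (α : Fin (k - 1) → ℝ) (γ t : ℝ) :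
    (Fp k q ρ α γ).eval t = γ * G k q ρ α t := by
  rw [Fp, G, g, eval_mul, eval_C, eval_add, eval_mul, eval_C, eval_sub, eval_pow, eval_C,
    eval_finsetSum]
  have h : (Lp q ρ).eval t = q * t + ρ := by simp [Lp]
  rw [h, div_eq_inv_mul]
  congr 2
  refine Finset.sum_congr rfl fun j _ => ?_
  rw [eval_mul, eval_C, eval_pow, h]

lemma Fp_deg (k q ρ : ℕ) (α : Fin (k - 1) → ℝ) (γ : ℝ) : (Fp k q ρ α γ).natDegree ≤ k := by
  refine (natDegree_C_mul_le _ _).trans ?_
  refine natDegree_add_le_of_degree_le ?_ ?_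
  · refine (natDegree_C_mul_le _ _).trans ?_
    refine (natDegree_sub_le _ _).trans ?_
    rw [natDegree_C]
    exact max_le (Lp_pow_deg q ρ k) (Nat.zero_le _)
  · refine natDegree_sum_le_of_forall_le _ _ fun j _ => ?_
    refine (natDegree_C_mul_le _ _).trans ((Lp_pow_deg q ρ _).trans ?_)
    have := j.2
    omega

lemma Fp_coeff {k q : ℕ} (hk : 2 ≤ k) (hq : 1 ≤ q) (ρ : ℕ) (α : Fin (k - 1) → ℝ) (γ : ℝ) :
    (Fp k q ρ α γ).coeff k = γ * (q : ℝ) ^ (k - 1) := by
  have h1 : (Lp q ρ ^ k).coeff k = (q : ℝ) ^ k := by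
    have := coeff_pow_of_natDegree_le (m := k) (Lp_deg q ρ)
    rw [mul_one] at this
    rw [this, Lp, coeff_add, coeff_C_mul, coeff_X_one, coeff_C_of_ne_zero one_ne_zero]
    ring
  have h2 : (C ((ρ : ℝ) ^ k)).coeff k = 0 := coeff_C_of_ne_zero (by omega)
  have h3 : (∑ j : Fin (k - 1), C (α j) * Lp q ρ ^ ((j : ℕ) + 1)).coeff k = 0 := by
    rw [finsetSum_coeff]
    refine Finset.sum_eq_zero fun j _ => ?_
    rw [coeff_C_mul, coeff_eq_zero_of_natDegree_lt, mul_zero]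
    refine (Lp_pow_deg q ρ _).trans_lt ?_
    have := j.2
    omega
  have hq0 : (q : ℝ) ≠ 0 := by
    have : (1 : ℝ) ≤ q := by exact_mod_cast hq
    linarith
  rw [Fp, coeff_C_mul, coeff_add, coeff_C_mul, coeff_sub, h1, h2, h3, sub_zero, add_zero]
  congr 1
  obtain ⟨n, rfl⟩ : ∃ n, k = n + 1 := ⟨k - 1, by omega⟩
  rw [Nat.add_sub_cancel, pow_succ]
  field_simp

lemma Ph_G {k q : ℕ} (hk : 2 ≤ k) (hq : 1 ≤ q) (ρ : ℕ) (α : Fin (k - 1) → ℝ) (γ : ℝ) :
    Ph k ((k.factorial : ℝ) * (γ * (q : ℝ) ^ (k - 1))) (fun n => γ * G k q ρ α (n : ℝ)) := by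
  have h := Ph_real k (Fp k q ρ α γ) (Fp_deg k q ρ α γ)
  rw [Fp_coeff hk hq] at h
  simpa only [Fp_eval] using h

end phase

/-! ### large numbers -/

lemma ev (K a b : ℝ) (h : a < b) : ∀ᶠ x : ℝ in atTop, K * x ^ a ≤ x ^ b := by
  have h1 := (tendsto_rpow_atTop (sub_pos.2 h)).eventually (eventually_ge_atTop K)
  filter_upwards [h1, eventually_gt_atTop (0 : ℝ)] with x hx hx0
  calc K * x ^ a ≤ x ^ (b - a) * x ^ a :=
        mul_le_mul_of_nonneg_right hx (Real.rpow_nonneg hx0.le _)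
    _ = x ^ b := by rw [← Real.rpow_add hx0, sub_add_cancel]

theorem t_SUP (hGEN : S_GEN) (hINT : S_INT) : S_SUP := by
  intro k hk
  obtain ⟨c, m', hc, hIW⟩ := IW_all k (by omega)
  have hk0 : (2 : ℝ) ≤ k := by exact_mod_cast hk
  have hm0 : (0 : ℝ) ≤ m' := Nat.cast_nonneg _
  have hD : (0 : ℝ) < 400 * k * (m' + 1) := by positivity
  obtain ⟨σ, hσ⟩ : ∃ σ : ℝ, σ = 1 / (400 * k * (m' + 1)) := ⟨_, rfl⟩
  have hσ0 : 0 < σ := by rw [hσ]; positivity
  have hσ1 : σ * (m' + 1) = 1 / (400 * k) := by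
    rw [hσ]
    field_simp
  have hs800 : 1 / (400 * (k : ℝ)) ≤ 1 / 800 := one_div_le_one_div_of_le (by norm_num) (by linarith)
  have hk400 : 0 < 1 / (400 * (k : ℝ)) := by positivity
  have hk100 : 1 / (100 * (k : ℝ)) = 4 * (1 / (400 * (k : ℝ))) := by
    field_simp
    norm_num
  have hσm : σ * m' ≤ 1 / (400 * k) := by nlinarith
  have hσk : σ ≤ 1 / (400 * k) := by nlinarith
  refine ⟨σ, hσ0, by linarith, fun q ρ M hq hM => ?_⟩
  filter_upwards [hGEN k q ρ M hk hq hM] with α hα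
  obtain ⟨m₀, hm₀⟩ := hα
  obtain ⟨C, hC, hI⟩ := hINT k q ρ hk hq α
  obtain ⟨K, hK⟩ : ∃ K : ℝ, K = c * 2 ^ m' * (k.factorial * (q : ℝ) ^ (k - 1)) := ⟨_, rfl⟩
  have hq0 : (1 : ℝ) ≤ q := by exact_mod_cast hq
  have hc0 : (1 : ℝ) ≤ c := by exact_mod_cast hc
  have hB1 : (1 : ℝ) ≤ k.factorial * (q : ℝ) ^ (k - 1) := by
    have h1 : (1 : ℝ) ≤ k.factorial := by exact_mod_cast Nat.factorial_pos k
    have h2 : (1 : ℝ) ≤ (q : ℝ) ^ (k - 1) := one_le_pow₀ hq0
    nlinarith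
  have hc2 : (1 : ℝ) ≤ c * 2 ^ m' := by
    have h2 : (1 : ℝ) ≤ (2 : ℝ) ^ m' := one_le_pow₀ (by norm_num)
    nlinarith
  have hK1 : (c : ℝ) * 2 ^ m' ≤ K := by
    rw [hK]
    nlinarith
  have hK0 : 1 ≤ K := hc2.trans hK1
  have hev := ((((((eventually_ge_atTop (1 : ℝ)).and (ev C (1 / 100) (1 - σ) (by linarith))).and
    (ev (4 * C) (1 - 1 / (100 * k)) (1 - σ) (by rw [hk100]; linarith))).and
    (ev (2 * K) (σ * m') (1 / 100) (by linarith))).and
    (ev (2 * K) (σ * (m' + 1)) (1 / 20) (by rw [hσ1]; linarith))).and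
    (ev 2 (19 / 20) (1 - σ) (by linarith)))
  have htend : Tendsto (fun m : ℕ => ((M * 2 ^ m : ℕ) : ℝ)) atTop atTop := by
    refine tendsto_atTop_mono (fun m => ?_) (tendsto_pow_atTop_atTop_of_one_lt
      (by norm_num : (1 : ℝ) < 2))
    have h1 : (1 : ℝ) ≤ M := by exact_mod_cast hM
    have h2 : (0 : ℝ) < 2 ^ m := by positivity
    push_cast
    nlinarith
  obtain ⟨m₁, hm₁⟩ := eventually_atTop.1 (htend.eventually hev)
  refine ⟨max m₀ m₁, fun m hm X hX γ hγ => ?_⟩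
  have hcond := hm₁ m ((le_max_right _ _).trans hm)
  rw [← hX] at hcond
  obtain ⟨⟨⟨⟨⟨hx1, c1⟩, c2⟩, c3⟩, c4⟩, c5⟩ := hcond
  have hG := hm₀ m ((le_max_left _ _).trans hm) X hX
  have hX1 : 1 ≤ X := by exact_mod_cast hx1
  obtain ⟨i1, i2⟩ := hI X hX1 γ
  obtain ⟨x, hx⟩ : ∃ x : ℝ, x = X := ⟨_, rfl⟩
  rw [← hx] at hx1 c1 c2 c3 c4 c5 hγ hG
  have i1' : ‖∑ z ∈ range X, e (γ * G k q ρ α z) - ∫ u in (0 : ℝ)..X, e (γ * G k q ρ α u)‖ ≤
      C * |γ| * x ^ k := by
    rw [hx]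
    exact i1
  suffices hgoal : ‖∑ z ∈ range X, e (γ * G k q ρ α z) -
      ∫ u in (0 : ℝ)..X, e (γ * G k q ρ α u)‖ ≤ x ^ (1 - σ) by
    rw [hx] at hgoal
    exact hgoal
  have hx0 : 0 < x := by linarith
  have hxk : (0 : ℝ) < x ^ k := by positivity
  by_cases hA : |γ| ≤ x ^ (1 / 100 : ℝ) / x ^ k
  · -- small `γ`
    refine i1'.trans ?_
    refine le_trans ?_ c1
    rw [mul_assoc]
    refine mul_le_mul_of_nonneg_left ?_ hC.le
    rwa [le_div_iff₀ hxk] at hA
  · push Not at hA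
    have hγ0 : 0 < |γ| := lt_of_le_of_lt (by positivity) hA
    have hγne : γ ≠ 0 := abs_pos.1 hγ0
    have hint : ‖∫ u in (0 : ℝ)..X, e (γ * G k q ρ α u)‖ ≤ x ^ (1 - σ) / 2 := by
      refine (i2 hγne).trans ?_
      have e1 : |γ| ^ (-(1 / (k : ℝ))) ≤ x ^ (1 - 1 / (100 * (k : ℝ))) := by
        have e2 : x ^ (1 / 100 : ℝ) / x ^ k = x ^ (1 / 100 - (k : ℝ)) := by
          rw [Real.rpow_sub hx0, Real.rpow_natCast]
        have e3 : |γ| ^ (-(1 / (k : ℝ))) ≤ (x ^ (1 / 100 - (k : ℝ))) ^ (-(1 / (k : ℝ))) := by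
          refine Real.rpow_le_rpow_of_nonpos (Real.rpow_pos_of_pos hx0 _) ?_ ?_
          · rw [← e2]
            exact hA.le
          · have : 0 < 1 / (k : ℝ) := by positivity
            linarith
        refine e3.trans (le_of_eq ?_)
        rw [← Real.rpow_mul hx0.le]
        congr 1
        field_simp
        ring
      have e4 : 1 ≤ x ^ (1 - 1 / (100 * (k : ℝ))) := by
        refine Real.one_le_rpow hx1 ?_
        rw [hk100]
        linarith
      nlinarith
    by_contra hcon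
    push Not at hcon
    have hS : x ^ (1 - σ) / 2 < ‖∑ z ∈ range X, e (γ * G k q ρ α z)‖ := by
      have h1 := norm_sub_le (∑ z ∈ range X, e (γ * G k q ρ α z))
        (∫ u in (0 : ℝ)..X, e (γ * G k q ρ α u))
      linarith
    -- the inverse theorem
    have hxσ : 1 ≤ x ^ σ := Real.one_le_rpow hx1 hσ0.le
    have hN : (X : ℝ) ≤ (2 * x ^ σ) * ‖∑ n ∈ range X,
        Pool.Agent.Helper602.MK.ee (γ * G k q ρ α (n : ℝ))‖ := by
      have h1 : x = (2 * x ^ σ) * (x ^ (1 - σ) / 2) := by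
        have : x ^ σ * x ^ (1 - σ) = x := by
          rw [← Real.rpow_add hx0]
          simp
        linarith
      rw [← hx]
      calc x = (2 * x ^ σ) * (x ^ (1 - σ) / 2) := h1
        _ ≤ (2 * x ^ σ) * ‖∑ z ∈ range X, e (γ * G k q ρ α z)‖ :=
          mul_le_mul_of_nonneg_left hS.le (by linarith)
    obtain ⟨q', hq'1, hq'2, a', ha'⟩ := hIW X (2 * x ^ σ)
      ((k.factorial : ℝ) * (γ * (q : ℝ) ^ (k - 1))) (fun n => γ * G k q ρ α (n : ℝ)) hX1
      (by linarith) (Ph_G hk hq ρ α γ) hN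
    have hu : (2 * x ^ σ) ^ m' = 2 ^ m' * x ^ (σ * m') := by
      rw [mul_pow, ← Real.rpow_natCast (x ^ σ), ← Real.rpow_mul hx0.le]
    rw [hu] at hq'2 ha'
    rw [← hx] at ha'
    have hxm : 0 < x ^ (σ * m') := Real.rpow_pos_of_pos hx0 _
    have hxm1 : x ^ (σ * m') ≤ x ^ (σ * (m' + 1)) :=
      Real.rpow_le_rpow_of_exponent_le hx1
        (mul_le_mul_of_nonneg_left (by linarith) hσ0.le)
    obtain ⟨b, hb⟩ : ∃ b : ℕ, b = q' * (k.factorial * q ^ (k - 1)) := ⟨_, rfl⟩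
    have hbr : (b : ℝ) = q' * (k.factorial * (q : ℝ) ^ (k - 1)) := by
      rw [hb]
      push_cast
      ring
    have hq'r : (1 : ℝ) ≤ q' := by exact_mod_cast hq'1
    have hb1 : (1 : ℝ) ≤ b := by
      rw [hbr]
      exact one_le_mul_of_one_le_of_one_le hq'r hB1
    have hbK : (b : ℝ) ≤ K * x ^ (σ * m') := by
      rw [hbr, hK]
      calc (q' : ℝ) * (k.factorial * (q : ℝ) ^ (k - 1))
          ≤ (c * (2 ^ m' * x ^ (σ * m'))) * (k.factorial * (q : ℝ) ^ (k - 1)) :=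
            mul_le_mul_of_nonneg_right hq'2 (by linarith)
        _ = _ := by ring
    have hba : |(b : ℝ) * γ - a'| ≤ K * x ^ (σ * m') / x ^ k := by
      have h1 : (b : ℝ) * γ - a' = q' * (k.factorial * (γ * (q : ℝ) ^ (k - 1))) - a' := by
        rw [hbr]
        ring
      rw [h1]
      refine ha'.trans ?_
      refine div_le_div_of_nonneg_right ?_ hxk.le
      rw [← mul_assoc]
      exact mul_le_mul_of_nonneg_right hK1 hxm.le
    have hbig : K * x ^ (σ * m') < x ^ (1 / 100 : ℝ) := by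
      have : 0 < K * x ^ (σ * m') := by positivity
      linarith
    have ha0 : a' ≠ 0 := by
      rintro rfl
      rw [Int.cast_zero, sub_zero, abs_mul, abs_of_pos (by linarith : (0 : ℝ) < b)] at hba
      have h1 : |γ| ≤ b * |γ| := le_mul_of_one_le_left (abs_nonneg _) hb1
      have h2 : |γ| ≤ K * x ^ (σ * m') / x ^ k := h1.trans hba
      have h3 : K * x ^ (σ * m') / x ^ k ≤ x ^ (1 / 100 : ℝ) / x ^ k :=
        div_le_div_of_nonneg_right hbig.le hxk.le
      linarith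
    have hxk1 : 1 ≤ x ^ k := one_le_pow₀ hx1
    have hbd : |(a' : ℝ)| ≤ x ^ (1 / 20 : ℝ) := by
      have h1 : |(a' : ℝ)| ≤ b * |γ| + K * x ^ (σ * m') / x ^ k := by
        have h2 : (a' : ℝ) = b * γ - (b * γ - a') := by ring
        have h3 := abs_sub (b * γ) ((b : ℝ) * γ - a')
        rw [← h2, abs_mul, abs_of_pos (by linarith : (0 : ℝ) < b)] at h3
        linarith
      have h4 : K * x ^ (σ * m') / x ^ k ≤ K * x ^ (σ * m') :=
        div_le_self (by positivity) hxk1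
      have h5 : (b : ℝ) * |γ| ≤ K * x ^ (σ * (m' + 1)) := by
        calc (b : ℝ) * |γ| ≤ (K * x ^ (σ * m')) * x ^ σ :=
              mul_le_mul hbK hγ (abs_nonneg _) (by positivity)
          _ = K * x ^ (σ * (m' + 1)) := by
            rw [mul_assoc, ← Real.rpow_add hx0]
            congr 2
            ring
      have h6 : K * x ^ (σ * m') ≤ K * x ^ (σ * (m' + 1)) :=
        mul_le_mul_of_nonneg_left hxm1 (by linarith)
      linarith
    have hbb : (b : ℝ) ≤ x ^ (1 / 20 : ℝ) := by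
      have h6 : K * x ^ (σ * m') ≤ K * x ^ (σ * (m' + 1)) :=
        mul_le_mul_of_nonneg_left hxm1 (by linarith)
      have h7 : 0 < K * x ^ (σ * (m' + 1)) := by positivity
      linarith
    have hτ : |γ - a' / b| ≤ x ^ (1 / 20 : ℝ) / x ^ k := by
      have hb0 : (0 : ℝ) < b := by linarith
      have h1 : γ - a' / b = (b * γ - a') / b := by
        field_simp
      rw [h1, abs_div, abs_of_pos hb0]
      have h2 : |(b : ℝ) * γ - a'| / b ≤ |(b : ℝ) * γ - a'| := div_le_self (abs_nonneg _) hb1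
      refine h2.trans (hba.trans (div_le_div_of_nonneg_right ?_ hxk.le))
      have h6 : K * x ^ (σ * m') ≤ K * x ^ (σ * (m' + 1)) :=
        mul_le_mul_of_nonneg_left hxm1 (by linarith)
      have h7 : 0 < K * x ^ (σ * (m' + 1)) := by positivity
      linarith
    have hfin := hG b a' (γ - a' / b) (by exact_mod_cast hb1) hbb ha0 hbd hτ
    rw [add_sub_cancel] at hfin
    linarith

end Pool.Agent.V5helper86.MT
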